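import Pool.Agent.H47.ALLH.Stmts

/-!
# ALLH, row STH: the star lemma for large heights
-/

set_option autoImplicit false

namespace Pool.ALLH

open Finset Pool.Agent.H98.ABCR Pool.SHA

/-- the number of the known primes -/
private theorem sth34_card (K : Finset ℕ) (X : ℝ) (hK : ∀ q ∈ K, q.Prime)
    (hle : ((∏ q ∈ K, q : ℕ) : ℝ) ≤ X) : (K.card : ℝ) ≤ 2 * Real.log X := by
  have h1 : 2 ^ K.card ≤ ∏ q ∈ K, q := by
    rw [← Finset.prod_const]
    exact Finset.prod_le_prod' (fun q hq => (hK q hq).two_le)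
  have h2 : ((2 : ℝ) ^ K.card) ≤ X := by
    have e1 : ((2 ^ K.card : ℕ) : ℝ) ≤ ((∏ q ∈ K, q : ℕ) : ℝ) := by exact_mod_cast h1
    have e2 : ((2 ^ K.card : ℕ) : ℝ) = (2 : ℝ) ^ K.card := by push_cast; rfl
    rw [e2] at e1
    exact e1.trans hle
  have h3 := Real.log_le_log (by positivity) h2
  rw [Real.log_pow] at h3
  have h4 := Real.log_two_gt_d9
  have h5 : (0 : ℝ) ≤ K.card := Nat.cast_nonneg _
  nlinarith

/-- the sum of the logarithms of the known primes -/
private theorem sth34_sum (K : Finset ℕ) (X : ℝ) (hK : ∀ q ∈ K, q.Prime)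
    (hle : ((∏ q ∈ K, q : ℕ) : ℝ) ≤ X) : ∑ t ∈ K, Real.log (t : ℝ) ≤ Real.log X := by
  have h1 : ∑ t ∈ K, Real.log (t : ℝ) = Real.log ((∏ q ∈ K, q : ℕ) : ℝ) := by
    rw [Nat.cast_prod, Real.log_prod]
    intro q hq
    exact_mod_cast (hK q hq).ne_zero
  rw [h1]
  refine Real.log_le_log ?_ hle
  exact_mod_cast Finset.prod_pos (fun q hq => (hK q hq).pos)

/-- the number of subsets is larger than the number of classes -/
private theorem sth34_pig (K T : Finset ℕ) (X lam : ℝ) (g J : ℕ) (m : ℕ → ℕ)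
    (hK : ∀ q ∈ K, q.Prime) (hT : T ⊆ K) (hle : ((∏ q ∈ K, q : ℕ) : ℝ) ≤ X) (hg : 1 ≤ g)
    (hlam : 0 < lam)
    (hm : ∀ t, m t = ⌈lam / Real.log (t : ℝ)⌉₊)
    (h : Real.log 2 + 2 * Real.log X * Real.log g + 2 * Real.log X * lam + 2 * Real.log X <
      J * Real.log 2) :
    2 * g ^ K.card * ∏ t ∈ T, t ^ (m t + 1) < 2 ^ J := by
  have hc := sth34_card K X hK hle
  have hs := sth34_sum K X hK hle
  have hlg : 0 ≤ Real.log (g : ℝ) := Real.log_natCast_nonneg _
  have hT0 : 0 < ∏ t ∈ T, t ^ (m t + 1) :=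
    Finset.prod_pos (fun t ht => pow_pos (hK t (hT ht)).pos _)
  have hprod : Real.log ((∏ t ∈ T, t ^ (m t + 1) : ℕ) : ℝ) ≤
      2 * Real.log X * lam + 2 * Real.log X := by
    have e1 : Real.log ((∏ t ∈ T, t ^ (m t + 1) : ℕ) : ℝ) =
        ∑ t ∈ T, ((m t : ℝ) + 1) * Real.log t := by
      rw [Nat.cast_prod, Real.log_prod]
      · refine Finset.sum_congr rfl (fun t _ => ?_)
        rw [Nat.cast_pow, Real.log_pow]
        push_cast
        rfl
      · intro t ht
        exact_mod_cast pow_ne_zero _ (hK t (hT ht)).ne_zero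
    have e2 : ∀ t ∈ T, ((m t : ℝ) + 1) * Real.log t ≤ lam + 2 * Real.log t := by
      intro t ht
      have a1 : (0 : ℝ) < Real.log t := Real.log_pos (by exact_mod_cast (hK t (hT ht)).one_lt)
      have a2 : (m t : ℝ) ≤ lam / Real.log t + 1 := by
        rw [hm t]
        exact (Nat.ceil_lt_add_one (by positivity)).le
      have a3 : lam / Real.log t * Real.log t = lam := by field_simp
      nlinarith [mul_le_mul_of_nonneg_right a2 a1.le]
    have e3 : ∑ t ∈ T, ((m t : ℝ) + 1) * Real.log t ≤ ∑ t ∈ K, (lam + 2 * Real.log (t : ℝ)) := by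
      refine (Finset.sum_le_sum e2).trans (Finset.sum_le_sum_of_subset_of_nonneg hT ?_)
      intro t ht _
      have a1 : (0 : ℝ) ≤ Real.log t := Real.log_natCast_nonneg _
      positivity
    have e4 : ∑ t ∈ K, (lam + 2 * Real.log (t : ℝ)) =
        K.card * lam + 2 * ∑ t ∈ K, Real.log (t : ℝ) := by
      rw [Finset.sum_add_distrib, Finset.sum_const, nsmul_eq_mul, Finset.mul_sum]
    rw [e1]
    nlinarith [mul_le_mul_of_nonneg_right hc hlam.le]
  have hlog : Real.log ((2 * g ^ K.card * ∏ t ∈ T, t ^ (m t + 1) : ℕ) : ℝ) =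
      Real.log 2 + K.card * Real.log g + Real.log ((∏ t ∈ T, t ^ (m t + 1) : ℕ) : ℝ) := by
    have hg0 : (g : ℝ) ≠ 0 := by
      have : 0 < g := hg
      exact_mod_cast this.ne'
    have hp0 : ((∏ t ∈ T, t ^ (m t + 1) : ℕ) : ℝ) ≠ 0 := by exact_mod_cast hT0.ne'
    have e1 : ((2 * g ^ K.card * ∏ t ∈ T, t ^ (m t + 1) : ℕ) : ℝ) =
        2 * (g : ℝ) ^ K.card * ((∏ t ∈ T, t ^ (m t + 1) : ℕ) : ℝ) := by
      push_cast
      ring
    rw [e1, Real.log_mul (by positivity) hp0, Real.log_mul (by norm_num) (by positivity),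
      Real.log_pow]
  by_contra hcon
  push Not at hcon
  have h1 : ((2 : ℝ) ^ J) ≤ ((2 * g ^ K.card * ∏ t ∈ T, t ^ (m t + 1) : ℕ) : ℝ) := by
    exact_mod_cast hcon
  have h2 := Real.log_le_log (by positivity) h1
  rw [Real.log_pow, hlog] at h2
  nlinarith [mul_le_mul_of_nonneg_right hc hlg]

/-- the size of the exponents -/
private theorem sth34_x (h0 : ℝ) (K : Finset ℕ) (x : ℕ → ℕ) (i s1 : Fin 3) (r : ℕ) (v : ℕ × ℕ)
    (hv : SolV h0 K x i s1 r v) (t : ℕ) (ht : t ∈ K) : (x t : ℝ) * Real.log t ≤ 2 * h0 := by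
  have h1 := hv.dx t ht
  obtain ⟨hp1, hp2, -⟩ := hv.tri
  have hpos : 0 < coord v i ∧ coord v i ≤ v.1 + v.2 := by
    unfold coord
    fin_cases i
    · refine ⟨hp1, ?_⟩
      show v.1 ≤ v.1 + v.2
      omega
    · refine ⟨hp2, ?_⟩
      show v.2 ≤ v.1 + v.2
      omega
    · refine ⟨?_, ?_⟩
      · show 0 < v.1 + v.2
        omega
      · show v.1 + v.2 ≤ v.1 + v.2
        omega
  have h2 : t ^ x t ≤ v.1 + v.2 := (Nat.le_of_dvd hpos.1 h1).trans hpos.2
  have h3 : 0 < t ^ x t := Nat.pos_of_dvd_of_pos h1 hpos.1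
  have h4 : (x t : ℝ) * Real.log t = Real.log ((t ^ x t : ℕ) : ℝ) := by
    rw [Nat.cast_pow, Real.log_pow]
  have h5 : Real.log ((t ^ x t : ℕ) : ℝ) ≤ hh v := by
    unfold hh
    exact Real.log_le_log (by exact_mod_cast h3) (by exact_mod_cast h2)
  rw [h4]
  exact h5.trans hv.up

/-- **STH**: the star lemma for large heights. -/
theorem sth_thm (hPADE : S_PADE) (hZER : S_ZER) (hALG : S_ALG) (hGPR : S_GPR) (hNUM : S_NUM) :
    S_STH := by
  intro δ hδ hδ1
  obtain ⟨L0, hL0, hN⟩ := hNUM δ hδ hδ1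
  refine ⟨Real.exp L0, Real.one_le_exp (by linarith), ?_⟩
  intro X h0 K x i Q hX hh0 hQ
  have hXpos : 0 < X := (Real.exp_pos _).trans_le hX
  set L : ℝ := Real.log X with hL
  have hLL : L0 ≤ L := by
    rw [hL, ← Real.log_exp L0]
    exact Real.log_le_log (Real.exp_pos _) hX
  have hL1 : 1 ≤ L := hL0.trans hLL
  have hh0' : 1 ≤ h0 := (one_le_pow₀ hL1).trans hh0
  obtain ⟨g, hgp, hg1, hg2, hg3⟩ := hGPR K x (L ^ 7) (one_le_pow₀ hL1)
  obtain ⟨J, M, n, lam, hlam, hM1, hMg, hn, hJ, hpig, hlamM, hmain, hzero⟩ :=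
    hN L h0 g hLL hh0 hg1 hg2
  by_contra hcon
  push Not at hcon
  -- the classes
  have hS : ∀ r, ∃ (s1 : Fin 3) (v : ℕ × ℕ), r ∈ Q → SolV h0 K x i s1 r v := by
    intro r
    by_cases hr : r ∈ Q
    · obtain ⟨-, -, -, s1, v, hv⟩ := hQ.rs r hr
      exact ⟨s1, v, fun _ => hv⟩
    · exact ⟨0, (0, 0), fun h => absurd h hr⟩
  choose s v hsv using hS
  have hmaps : ∀ r ∈ Q, (s r, (coord (v r) (s r)).factorization r % g) ∈
      (univ : Finset (Fin 3)) ×ˢ range g := by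
    intro r _
    rw [Finset.mem_product]
    exact ⟨mem_univ _, mem_range.2 (Nat.mod_lt _ hgp.pos)⟩
  have hcard : ((univ : Finset (Fin 3)) ×ˢ range g).card * J < Q.card := by
    rw [Finset.card_product, Finset.card_univ, Fintype.card_fin, card_range]
    have e1 : ((3 * g * J : ℕ) : ℝ) < (Q.card : ℝ) := by
      push_cast
      linarith
    exact_mod_cast e1
  obtain ⟨⟨s1, z0⟩, hy, hfib⟩ :=
    Finset.exists_lt_card_fiber_of_mul_lt_card_of_maps_to hmaps hcard
  rw [Finset.mem_product] at hy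
  have hz0 : z0 < g := mem_range.1 hy.2
  set Q' : Finset ℕ := Q.filter
    (fun r => (s r, (coord (v r) (s r)).factorization r % g) = (s1, z0)) with hQ'
  have hQ'mem : ∀ r ∈ Q', r ∈ Q ∧ s r = s1 ∧ (coord (v r) s1).factorization r % g = z0 := by
    intro r hr
    rw [hQ', Finset.mem_filter] at hr
    obtain ⟨a1, a2⟩ := hr
    rw [Prod.mk.injEq] at a2
    obtain ⟨a3, a4⟩ := a2
    exact ⟨a1, a3, by rw [a3] at a4; exact a4⟩
  -- the sequence of the solutions
  let rr : ℕ → ℕ := fun j => if h : j < Q'.card then Q'.orderEmbOfFin rfl ⟨j, h⟩ else 0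
  have hrr : ∀ j < J, ∃ h : j < Q'.card, rr j = Q'.orderEmbOfFin rfl ⟨j, h⟩ := by
    intro j hj
    have e1 : j < Q'.card := hj.trans hfib
    exact ⟨e1, dif_pos e1⟩
  have hrmem : ∀ j < J, rr j ∈ Q' := by
    intro j hj
    obtain ⟨e1, e2⟩ := hrr j hj
    rw [e2]
    exact Finset.orderEmbOfFin_mem _ _ _
  have hrinj : ∀ j < J, ∀ j' < J, rr j = rr j' → j = j' := by
    intro j hj j' hj' he
    obtain ⟨e1, e2⟩ := hrr j hj
    obtain ⟨e3, e4⟩ := hrr j' hj'
    rw [e2, e4] at he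
    have e5 := (Q'.orderEmbOfFin rfl).injective he
    exact congrArg Fin.val e5
  have hsol : ∀ j < J, (rr j).Prime ∧ rr j ∉ K ∧ Real.log (rr j) ≤ L ∧
      SolV h0 K x i s1 (rr j) (v (rr j)) ∧
      (coord (v (rr j)) s1).factorization (rr j) % g = z0 := by
    intro j hj
    obtain ⟨a1, a2, a3⟩ := hQ'mem _ (hrmem j hj)
    obtain ⟨b1, b2, b3, -⟩ := hQ.rs _ a1
    refine ⟨b1, b2, ?_, ?_, a3⟩
    · exact Real.log_le_log (by exact_mod_cast b1.pos) b3
    · have e1 := hsv _ a1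
      rw [a2] at e1
      exact e1
  -- the set of the places
  set T : Finset ℕ := (K.erase g).filter (fun t => 1 ≤ x t) with hT
  have hTK : T ⊆ K := (Finset.filter_subset _ _).trans (Finset.erase_subset _ _)
  have hTx : ∀ t ∈ T, 1 ≤ x t := fun t ht => (Finset.mem_filter.1 ht).2
  have hTg : ∀ t ∈ T, t ≠ g := fun t ht =>
    (Finset.mem_erase.1 (Finset.mem_filter.1 ht).1).1
  have hTsum : ∑ t ∈ T, (x t : ℝ) * Real.log t = ∑ t ∈ K.erase g, (x t : ℝ) * Real.log t := by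
    rw [hT]
    refine Finset.sum_subset (Finset.filter_subset _ _) ?_
    intro t ht1 ht2
    have e1 : x t = 0 := by
      by_contra h1
      exact ht2 (Finset.mem_filter.2 ⟨ht1, Nat.one_le_iff_ne_zero.2 h1⟩)
    rw [e1, Nat.cast_zero, zero_mul]
  have hlow : δ / 2 * h0 ≤ ∑ t ∈ T, (x t : ℝ) * Real.log t := by
    have e1 := hQ.wt
    rw [hTsum]
    linarith
  set m : ℕ → ℕ := fun t => ⌈lam / Real.log (t : ℝ)⌉₊ with hm
  have hpig' : 2 * g ^ K.card * ∏ t ∈ T, t ^ (m t + 1) < 2 ^ J :=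
    sth34_pig K T X lam g J m hQ.pr hTK hQ.le hgp.one_lt.le hlam (fun t => rfl) hpig
  have hJ0 : 0 < J := by
    rcases Nat.eq_zero_or_pos J with h1 | h1
    · exfalso
      rw [h1, pow_zero] at hpig'
      have e1 : 0 < g ^ K.card * ∏ t ∈ T, t ^ (m t + 1) :=
        Nat.mul_pos (pow_pos hgp.pos _)
          (Finset.prod_pos (fun t ht => pow_pos (hQ.pr t (hTK ht)).pos _))
      rw [mul_assoc] at hpig'
      omega
    · exact h1
  obtain ⟨Nt, Dt, W1, W2, hA, hW, hNt, hDt, hW1, hW2⟩ := hALG J g z0 K T x m i s1 rr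
    (fun j => v (rr j)) h0 L hgp.pos hQ.pr hTK hTx hsol hrinj hpig'
  rcases Nat.eq_zero_or_pos z0 with hz | hz
  · subst hz
    have e1 := hZER g T x m Nt Dt W1 W2 (4 * J * h0 / g) hgp hA hTg (hW rfl) hW1 hW2
    linarith
  · have e1 := hPADE g M n z0 T x m Nt Dt W1 W2 (J * L) (4 * J * h0 / g) hgp hz hz0 hM1 hMg hn
      hA ?_ hNt hDt hW1 hW2
    · linarith
    · intro t ht
      have a1 : (0 : ℝ) < Real.log t :=
        Real.log_pos (by exact_mod_cast (hQ.pr t (hTK ht)).one_lt)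
      refine ⟨hTg t ht, ?_, ?_⟩
      · have e2 : 0 < m t := Nat.ceil_pos.2 (div_pos hlam a1)
        exact e2
      · have e2 := sth34_x h0 K x i s1 _ _ (hsol 0 hJ0).2.2.2.1 t (hTK ht)
        have e3 : lam / Real.log t ≤ m t := Nat.le_ceil _
        have e4 : (x t : ℝ) * Real.log t ≤ (m t : ℝ) * (M * n) * Real.log t := by
          have f1 : lam ≤ m t * Real.log t := by
            have := mul_le_mul_of_nonneg_right e3 a1.le
            rwa [div_mul_cancel₀ _ a1.ne'] at this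
          have f2 : (0 : ℝ) ≤ (M : ℝ) * n := by positivity
          calc (x t : ℝ) * Real.log t ≤ 2 * h0 := e2
            _ ≤ lam * (M * n) := hlamM
            _ ≤ m t * Real.log t * (M * n) := mul_le_mul_of_nonneg_right f1 f2
            _ = (m t : ℝ) * (M * n) * Real.log t := by ring
        have e5 : (x t : ℝ) ≤ (m t : ℝ) * (M * n) := le_of_mul_le_mul_right e4 a1
        exact_mod_cast e5

end Pool.ALLH
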